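import Pool.Agent.TH831.OE.OrdH

/-!
# Two-dimensional ordinary representations whose reduction is twice a character

Let `p` be an odd prime and `S` a finite set of primes `l ≠ p` with `l - 1` not divisible by
`p ^ 2`. Let `A` be the ring of integers of a finite extension `E` of `ℚ_p` of ramification index
`e`, and let `ρ : Gal(ℚbar/ℚ) → GL_2(A)` be continuous, unramified outside `S` and `p`, such that
the semisimplification of its reduction is the sum of two copies of a character, and such that the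
decomposition group at `p` preserves a line of `E ^ 2`. If `2 e < p - 1`, or if the inertia groups
at the primes in `S` congruent to `1` modulo `p` act unipotently, then `ρ` is reducible over `E`
under an explicit condition on power residues.
-/

set_option autoImplicit false

open NumberField Matrix IsLocalRing

namespace Pool.Agent.Results.MP_b583a4_nt.OrdinaryScalar

/-- `ρ` is unramified at all primes that do not lie above `p` or above a prime number in `S`. -/
def UnramifiedOutside {A : Type} [CommRing A] (p : ℕ) (S : Finset ℕ)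
    (ρ : Gal(AlgebraicClosure ℚ/ℚ) →* GL (Fin 2) A) : Prop :=
  ∀ P : Ideal (𝓞 (AlgebraicClosure ℚ)), P.IsMaximal →
    (∀ l ∈ S, (l : 𝓞 (AlgebraicClosure ℚ)) ∉ P) → (p : 𝓞 (AlgebraicClosure ℚ)) ∉ P →
      ∀ τ : Gal(AlgebraicClosure ℚ/ℚ), (∀ x : 𝓞 (AlgebraicClosure ℚ), τ • x - x ∈ P) → ρ τ = 1

/-- There is a character `a` with values in the residue field such that `a g` is the only
eigenvalue of the reduction of `ρ g`, for all `g`; by Brauer and Nesbitt this says that the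
semisimplification of the reduction of `ρ` is the sum of two copies of `a`. -/
def ResiduallyScalar {A : Type} [CommRing A] [IsLocalRing A]
    (ρ : Gal(AlgebraicClosure ℚ/ℚ) →* GL (Fin 2) A) : Prop :=
  ∃ a : Gal(AlgebraicClosure ℚ/ℚ) →* (ResidueField A)ˣ, ∀ g,
    IsNilpotent ((ρ g : Matrix (Fin 2) (Fin 2) A).map (residue A) -
      (a g : ResidueField A) • (1 : Matrix (Fin 2) (Fin 2) (ResidueField A)))

/-- The decomposition group at the prime ideal `P` of the ring of all algebraic integers. -/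
def Decomposition (P : Ideal (𝓞 (AlgebraicClosure ℚ))) : Set Gal(AlgebraicClosure ℚ/ℚ) :=
  {g | ∀ x : 𝓞 (AlgebraicClosure ℚ), g • x ∈ P ↔ x ∈ P}

/-- The elements of `D` preserve a line (over the fraction field of `A`); for `D` the whole group
this says that `ρ` is reducible over the fraction field. -/
def StableLine {A : Type} [CommRing A] (ρ : Gal(AlgebraicClosure ℚ/ℚ) →* GL (Fin 2) A)
    (D : Set Gal(AlgebraicClosure ℚ/ℚ)) : Prop :=
  ∃ v : Fin 2 → A, v ≠ 0 ∧ ∀ g ∈ D, ∃ c : A, (ρ g : Matrix (Fin 2) (Fin 2) A) *ᵥ v = c • v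

/-- The members of `S` congruent to `1` modulo `p`. -/
def Tame (p : ℕ) (S : Finset ℕ) : Finset ℕ := S.filter fun l => p ∣ l - 1

/-- The inertia groups at the primes above the members of `Tame p S` act unipotently. -/
def UnipotentInertia {A : Type} [CommRing A] (p : ℕ) (S : Finset ℕ)
    (ρ : Gal(AlgebraicClosure ℚ/ℚ) →* GL (Fin 2) A) : Prop :=
  ∀ l ∈ Tame p S, ∀ P : Ideal (𝓞 (AlgebraicClosure ℚ)), P.IsMaximal →
    (l : 𝓞 (AlgebraicClosure ℚ)) ∈ P → ∀ τ : Gal(AlgebraicClosure ℚ/ℚ),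
      (∀ x : 𝓞 (AlgebraicClosure ℚ), τ • x - x ∈ P) →
        ((ρ τ : Matrix (Fin 2) (Fin 2) A) - 1) ^ 2 = 0

/-- The linking number of the distinct primes `q` and `j`, with respect to a homomorphism
`χ : (ℤ/j)ˣ → ℤ/p`, as an element of a field `K` of characteristic `p`: the value of `χ` at the
class of `q` (and `0` if `j` divides `q`). If `j` is a prime congruent to `1` modulo `p` and `χ` is
nontrivial, it vanishes if and only if `q` is a `p`-th power modulo `j`. -/
noncomputable def linking (K : Type) [Field K] {p : ℕ} (j q : ℕ)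
    (χ : (ZMod j)ˣ →* Multiplicative (ZMod p)) : K :=
  open Classical in if h : Nat.Coprime q j then
    ((Multiplicative.toAdd (χ (ZMod.unitOfCoprime q h))).val : K) else 0

/-- At most two members of `S` are congruent to `1` modulo `p`, and if `k`, `l` are two such
members, then `p` and `k` are not both `p`-th powers modulo `l` and, unless `e = 1`, the numbers
`u_k χ_k(l) χ_l(p)` and `u_l χ_l(k) χ_k(p)` are different, where `u_l = (l - 1) / p`. -/
def AtMostTwo (K : Type) [Field K] (p : ℕ) (S : Finset ℕ)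
    (χ : ∀ j : ℕ, (ZMod j)ˣ →* Multiplicative (ZMod p)) (e : ℕ) : Prop :=
  (Tame p S).card ≤ 2 ∧ ∀ k ∈ Tame p S, ∀ l ∈ Tame p S, k ≠ l →
    (linking K l p (χ l) ≠ 0 ∨ linking K l k (χ l) ≠ 0) ∧
    (e = 1 ∨ (((k - 1) / p : ℕ) : K) * linking K k l (χ k) * linking K l p (χ l) ≠
      (((l - 1) / p : ℕ) : K) * linking K l k (χ l) * linking K k p (χ k))

/-- Characters of `Gal(ℚbar/ℚ)` with values in `K` unramified outside `S` and `p` are given by
vectors `(x_p, x_l)`, where `l` runs through `Tame p S`; the value at a Frobenius element at `l` is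
`u_l x_p + ∑ χ_j(l) x_j` up to a multiple of `x_l`, `u_l = (l - 1) / p`. The condition says: there
are no two nonzero characters `x`, `y` such that for all `l` in `Tame p S`, if one of them is
ramified at `l` then the other one is trivial on the decomposition group at `l`, and such that one
of them is trivial on the decomposition group at `p`. -/
def NoPair (K : Type) [Field K] (p : ℕ) (S : Finset ℕ)
    (χ : ∀ j : ℕ, (ZMod j)ˣ →* Multiplicative (ZMod p)) : Prop :=
  ∀ (xp yp : K) (x y : ℕ → K), (∀ l ∈ Tame p S, x l * y l = 0) →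
    (∀ l ∈ Tame p S, x l * ((((l - 1) / p : ℕ) : K) * yp +
      ∑ j ∈ Tame p S, linking K j l (χ j) * y j) = 0) →
    (∀ l ∈ Tame p S, y l * ((((l - 1) / p : ℕ) : K) * xp +
      ∑ j ∈ Tame p S, linking K j l (χ j) * x j) = 0) →
    ((xp = 0 ∧ ∑ j ∈ Tame p S, linking K j p (χ j) * x j = 0) ∨
      (yp = 0 ∧ ∑ j ∈ Tame p S, linking K j p (χ j) * y j = 0)) →
    (xp = 0 ∧ ∀ l ∈ Tame p S, x l = 0) ∨ (yp = 0 ∧ ∀ l ∈ Tame p S, y l = 0)

/-- `v` is an eigenvector of `M` (or zero). -/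
def Eigen {K : Type} [Field K] (M : Matrix (Fin 2) (Fin 2) K) (v : Fin 2 → K) : Prop :=
  ∃ c : K, M *ᵥ v = c • v

/-- Whenever `C` and `T_l`, `l` in `Tame p S`, are matrices of trace zero over `K` with
`T_l ^ 2 = 0` and `[u_l C + ∑ χ_j(l) T_j, T_l] = ε u_l T_l`, `u_l = (l - 1) / p`, and `C` and
`∑ χ_j(p) T_j` have a common eigenvector, then `C` and all `T_l` have a common eigenvector. -/
def NoTuple (K : Type) [Field K] (p : ℕ) (S : Finset ℕ)
    (χ : ∀ j : ℕ, (ZMod j)ˣ →* Multiplicative (ZMod p)) (ε : K) : Prop :=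
  ∀ (C : Matrix (Fin 2) (Fin 2) K) (T : ℕ → Matrix (Fin 2) (Fin 2) K),
    C.trace = 0 → (∀ l ∈ Tame p S, T l * T l = 0) →
    (∀ l ∈ Tame p S,
      ((((l - 1) / p : ℕ) : K) • C + ∑ j ∈ Tame p S, linking K j l (χ j) • T j) * T l -
      T l * ((((l - 1) / p : ℕ) : K) • C + ∑ j ∈ Tame p S, linking K j l (χ j) • T j) =
        (ε * (((l - 1) / p : ℕ) : K)) • T l) →
    (∃ v : Fin 2 → K, v ≠ 0 ∧ Eigen C v ∧
      Eigen (∑ j ∈ Tame p S, linking K j p (χ j) • T j) v) →
    ∃ w : Fin 2 → K, w ≠ 0 ∧ Eigen C w ∧ ∀ l ∈ Tame p S, Eigen (T l) w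

/-! ### Translation -/

theorem eigen_iff {K : Type} [Field K] {M : Matrix (Fin 2) (Fin 2) K}
    {v : Fin 2 → K} (hv : v ≠ 0) : Eigen M v ↔ TH831.OT.wed (M *ᵥ v) v = 0 := by
  constructor
  · rintro ⟨c, hc⟩
    rw [hc, TH831.OT.wed_smul_left, TH831.OT.wed_self, mul_zero]
  · exact TH831.OT.eig_of_wed hv

theorem linking_eq {K : Type} [Field K] {p : ℕ} [hp : Fact p.Prime] [CharP K p] {j q : ℕ}
    (χ : (ZMod j)ˣ →* Multiplicative (ZMod p)) (x : (ZMod j)ˣ) (hx : (x : ZMod j) = (q : ZMod j)) :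
    linking K j q χ = ZMod.castHom (dvd_refl p) K (Multiplicative.toAdd (χ x)) := by
  have : NeZero p := ⟨hp.out.ne_zero⟩
  have h : Nat.Coprime q j := by
    rw [← ZMod.isUnit_iff_coprime, ← hx]
    exact x.isUnit
  unfold linking
  rw [dif_pos h, ZMod.castHom_apply, ZMod.natCast_val]
  congr 3
  exact Units.ext (by rw [hx]; rfl)

/-- The theorem. -/
theorem result (p : ℕ) [Fact p.Prime] (hp2 : p ≠ 2) (S : Finset ℕ)
    (hS : ∀ l ∈ S, l.Prime ∧ l ≠ p ∧ ¬ p ^ 2 ∣ l - 1)
    (A : Type) [CommRing A] [IsDomain A] [IsDiscreteValuationRing A]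
    [IsAdicComplete (maximalIdeal A) A] [TopologicalSpace A] (hA : IsAdic (maximalIdeal A))
    (hfin : Finite (ResidueField A)) (e : ℕ) (he : 1 ≤ e) (h0 : (p : A) ∈ maximalIdeal A ^ e)
    (h1 : (p : A) ∉ maximalIdeal A ^ (e + 1))
    (χ : ∀ j : ℕ, (ZMod j)ˣ →* Multiplicative (ZMod p)) (hχ : ∀ l ∈ Tame p S, ∃ x, χ l x ≠ 1)
    (hX : AtMostTwo (ResidueField A) p S χ e ∨ (NoPair (ResidueField A) p S χ ∧
      NoTuple (ResidueField A) p S χ 1 ∧ (e = 1 ∨ NoTuple (ResidueField A) p S χ 0)))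
    (ρ : Gal(AlgebraicClosure ℚ/ℚ) →* GL (Fin 2) A) (hρ : Continuous ρ)
    (hur : UnramifiedOutside p S ρ) (hres : ResiduallyScalar ρ)
    (hU : 2 * e < p - 1 ∨ UnipotentInertia p S ρ)
    (P : Ideal (𝓞 (AlgebraicClosure ℚ))) (hP : P.IsMaximal)
    (hpP : (p : 𝓞 (AlgebraicClosure ℚ)) ∈ P) (hloc : StableLine ρ (Decomposition P)) :
    StableLine ρ Set.univ := by
  have hp : p.Prime := Fact.out
  have hmem : ∀ l ∈ Tame p S, l ∈ S ∧ p ∣ l - 1 := fun l hl => Finset.mem_filter.1 hl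
  have hS1 : ∀ l ∈ Tame p S, l.Prime ∧ p ∣ l - 1 ∧ ¬ p ^ 2 ∣ l - 1 := fun l hl =>
    ⟨(hS l (hmem l hl).1).1, (hmem l hl).2, (hS l (hmem l hl).1).2.2⟩
  have hS' : ∀ l ∈ S, l.Prime ∧ l ≠ p := fun l hl => ⟨(hS l hl).1, (hS l hl).2.1⟩
  have hpm : (p : A) ∈ maximalIdeal A := Ideal.pow_le_self (by omega) h0
  have hpκ := TH831.OE.natCast_zero_iff hp hpm
  have hchar : CharP (ResidueField A) p := TH831.OE.charP_res hp hpm
  have hpπ := (TH831.OE.mem_max_iff (p : A)).1 hpm
  have h2κ : (2 : ResidueField A) ≠ 0 := TH831.OE.two_ne_of hp2 hpκ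
  obtain ⟨c, hc⟩ := (TH831.OE.mem_pow_iff e (p : A)).1 h0
  have hqc : (TH831.OE.bas A).q c ≠ 0 := by
    intro h
    obtain ⟨d, hd⟩ := ((TH831.OE.bas A).ker c).1 h
    apply h1
    rw [TH831.OE.mem_pow_iff]
    exact ⟨d, by rw [hc, hd]; ring⟩
  have hcts := TH831.OE.cts_of_continuous hA hρ
  have hu : ∀ l ∈ Tame p S, (((l - 1) / p : ℕ) : ResidueField A) ≠ 0 := by
    intro l hl
    rw [Ne, hpκ]
    intro h
    apply (hS1 l hl).2.2
    rw [pow_two, ← Nat.mul_div_cancel' (hS1 l hl).2.1]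
    exact Nat.mul_dvd_mul_left p h
  -- the twist
  obtain ⟨a, ha⟩ := hres
  have hres' : TH831.OE.ResS (TH831.OE.bas A) a ρ := fun g =>
    TH831.OT.sq_zero_of_nil (ha g)
  obtain ⟨ρ', s, k1, k2, k3, k4, k5, k6⟩ := TH831.OE.exists_twistB h2κ
    (fun d x hx hd => by
      obtain ⟨y, rfl⟩ := residue_surjective x
      exact TH831.OE.exists_sqrtA h2κ d y hx hd) hcts hres'
  have hresM : ∀ g, ∃ M : ℕ, ∀ i j, (((ρ' g : Matrix (Fin 2) (Fin 2) A) - 1) ^ M) i j ∈
      maximalIdeal A := by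
    intro g
    refine ⟨2, fun i j => ?_⟩
    rw [← residue_eq_zero_iff]
    have e1 := congrFun (congrFun (k2 g) i) j
    rw [← map_one (TH831.OE.red (TH831.OE.bas A)), ← map_sub, ← map_mul, ← pow_two] at e1
    exact e1
  have hresU := TH831.OE.resU_of hresM
  have hur' : ∀ g ∈ TH831.OT.UrSet p S, ρ' g = 1 := by
    rintro g ⟨Q, hQ, h2, h3, h4⟩
    exact k6 g (hur Q hQ h2 h3 g h4)
  have hline' : TH831.OE.HasLine ρ' (TH831.OT.DSet P) := by
    obtain ⟨v, hv, h⟩ := hloc
    refine ⟨v, hv, fun g hg => ?_⟩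
    obtain ⟨x, hx⟩ := h g hg
    have e1 : TH831.OE.mt (ρ g) *ᵥ v = x • v := hx
    rw [k4, Matrix.smul_mulVec, e1, TH831.OT.wed_smul_left, TH831.OT.wed_smul_left,
      TH831.OT.wed_self, mul_zero, mul_zero]
  have hU' : ∀ l ∈ S, p ∣ l - 1 → ∀ P : Ideal (𝓞 (AlgebraicClosure ℚ)), P.IsMaximal →
      (l : 𝓞 (AlgebraicClosure ℚ)) ∈ P → ∀ τ : Gal(AlgebraicClosure ℚ/ℚ),
        (∀ x : 𝓞 (AlgebraicClosure ℚ), τ • x - x ∈ P) →
        (TH831.OE.mt (ρ' τ) - 1) * (TH831.OE.mt (ρ' τ) - 1) = 0 := by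
    intro l hl hpl Q hQ hlQ τ hτ
    rcases hU with h | h
    · exact TH831.OE.unip_of_small hp2 hpκ hpπ (Or.inl (TH831.OE.small_of_ram hp hp2 h0 h1 h))
        k1 hresU (hS l hl).1 (Ne.symm (hS l hl).2.1) hpl hQ hlQ hτ
    · have h3 := h l (Finset.mem_filter.2 ⟨hl, hpl⟩) Q hQ hlQ τ hτ
      rw [pow_two] at h3
      have h3' : (TH831.OE.mt (ρ τ) - 1) * (TH831.OE.mt (ρ τ) - 1) = 0 := h3
      have h4 := TH831.OE.det_one_of_sq h3'
      have h5 := k5 τ
      rw [k4, Matrix.det_smul, Fintype.card_fin, h4, mul_one] at h5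
      -- the trace shows `s τ = 1`
      have h6 : s τ = 1 := by
        have t1 := TH831.OT.trace_zero_of_sq (k2 τ)
        have t2 : (TH831.OE.mt (ρ τ) - 1).trace = 0 :=
          (Matrix.isNilpotent_trace_of_isNilpotent ⟨2, by rw [pow_two, h3']⟩).eq_zero
        have t3 : (TH831.OE.bas A).q (s τ) = 1 := by
          rw [Matrix.trace_sub, Matrix.trace_one, Fintype.card_fin] at t1 t2
          have t4 : (TH831.OE.red (TH831.OE.bas A) (TH831.OE.mt (ρ' τ))).trace =
              (TH831.OE.bas A).q (s τ) * (TH831.OE.bas A).q (TH831.OE.mt (ρ τ)).trace := by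
            rw [k4, TH831.OE.red_smul, Matrix.trace_smul, smul_eq_mul]
            congr 1
          rw [t4, sub_eq_zero.1 t2] at t1
          have t5 : (2 : ResidueField A) * ((TH831.OE.bas A).q (s τ) - 1) = 0 := by
            have : (TH831.OE.bas A).q ((2 : ℕ) : A) = 2 := map_natCast _ 2
            rw [this] at t1
            push_cast at t1
            linear_combination t1
          exact sub_eq_zero.1 ((mul_eq_zero.1 t5).resolve_left h2κ)
        refine TH831.OE.sqrt_uniqueB (B := TH831.OE.bas A) h2κ ?_ ?_ ?_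
        · rw [t3, map_one]
        · rw [map_one]
          exact one_ne_zero
        · rw [one_mul]
          linear_combination h5
      rw [k4, h6, one_smul]
      exact h3'
  obtain ⟨d⟩ := TH831.OE.exists_dat hp2 S hS' χ
    (fun l hl hpl => hχ l (Finset.mem_filter.2 ⟨hl, hpl⟩)) P hP hpP
  obtain ⟨A', hτ, hσ⟩ := TH831.OE.exists_ordAr hS' hP d
    (ZMod.castHom (dvd_refl p) (ResidueField A))
    (fun l j => linking (ResidueField A) j l (χ j)) (fun j => linking (ResidueField A) j p (χ j))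
    (fun l _ _ j _ _ _ x hx => linking_eq (χ j) x hx)
    (fun j _ _ x hx => linking_eq (χ j) x hx)
  have key : ∀ (h0' : TH831.OE.H0 (Tame p S) (fun l => (((l - 1) / p : ℕ) : ResidueField A))
        (fun l j => linking (ResidueField A) j l (χ j))
        (fun j => linking (ResidueField A) j p (χ j)) False)
      (n1 : TH831.OE.NTo (Tame p S) (fun l => (((l - 1) / p : ℕ) : ResidueField A))
        (fun l j => linking (ResidueField A) j l (χ j))
        (fun j => linking (ResidueField A) j p (χ j)) 1)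
      (n0 : e ≠ 1 → TH831.OE.NTo (Tame p S) (fun l => (((l - 1) / p : ℕ) : ResidueField A))
        (fun l j => linking (ResidueField A) j l (χ j))
        (fun j => linking (ResidueField A) j p (χ j)) 0), StableLine ρ Set.univ := by
    intro h0' n1 n0
    obtain ⟨v, hv, hl⟩ := TH831.OE.ord_line (B := TH831.OE.bas A) hp2 hpκ hc hqc he hS d A' hτ hσ
      h0' (fun k hk => TH831.OE.h1_ord hpκ hS1 hc hqc n1 n0 hk) k1 k5 hresU hur' hline' hU'
      (TH831.OE.exists_od_dvr hp hfin hpm hresM)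
    obtain ⟨x, w, hx, rfl, hw⟩ := TH831.OE.exists_primitive (TH831.OE.bas A) v hv
    refine ⟨w, fun h => hv (by rw [h, smul_zero]), fun g _ => ?_⟩
    have e1 : TH831.OT.wed (TH831.OE.mt (ρ' g) *ᵥ (x • w)) (x • w) = 0 := hl g trivial
    rw [k4, Matrix.smul_mulVec, TH831.OT.wed_smul_left, Matrix.mulVec_smul,
      TH831.OT.wed_smul_left, TH831.OT.wed_smul_right] at e1
    have e2 := (mul_eq_zero.1 ((mul_eq_zero.1 ((mul_eq_zero.1 e1).resolve_left
      (k3 g))).resolve_left hx)).resolve_left hx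
    -- a multiple
    set M := (ρ g : Matrix (Fin 2) (Fin 2) A) with hM
    have e3 : (M *ᵥ w) 0 * w 1 - (M *ᵥ w) 1 * w 0 = 0 := e2
    rcases hw with h | h
    · obtain ⟨y, hy⟩ := (TH831.OE.bas A).unit _ h
      have e4 : ((y⁻¹ : Aˣ) : A) * w 0 = 1 := by rw [← hy, Units.inv_mul]
      refine ⟨((y⁻¹ : Aˣ) : A) * (M *ᵥ w) 0, ?_⟩
      funext i
      fin_cases i
      · show (M *ᵥ w) 0 = ((y⁻¹ : Aˣ) : A) * (M *ᵥ w) 0 * w 0
        linear_combination -(M *ᵥ w) 0 * e4
      · show (M *ᵥ w) 1 = ((y⁻¹ : Aˣ) : A) * (M *ᵥ w) 0 * w 1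
        linear_combination -(M *ᵥ w) 1 * e4 - ((y⁻¹ : Aˣ) : A) * e3
    · obtain ⟨y, hy⟩ := (TH831.OE.bas A).unit _ h
      have e4 : ((y⁻¹ : Aˣ) : A) * w 1 = 1 := by rw [← hy, Units.inv_mul]
      refine ⟨((y⁻¹ : Aˣ) : A) * (M *ᵥ w) 1, ?_⟩
      funext i
      fin_cases i
      · show (M *ᵥ w) 0 = ((y⁻¹ : Aˣ) : A) * (M *ᵥ w) 1 * w 0
        linear_combination -(M *ᵥ w) 0 * e4 + ((y⁻¹ : Aˣ) : A) * e3
      · show (M *ᵥ w) 1 = ((y⁻¹ : Aˣ) : A) * (M *ᵥ w) 1 * w 1
        linear_combination -(M *ᵥ w) 1 * e4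
  rcases hX with ⟨hcard, hD⟩ | ⟨h2, h3, h4⟩
  · refine key (TH831.OE.h0_fewK hcard hu fun l hl k hk hkl => (hD k hk l hl hkl).1)
      (TH831.OE.nto_few h2κ hcard hu (Or.inl one_ne_zero)) fun he1 =>
      TH831.OE.nto_few h2κ hcard hu (Or.inr fun k hk l hl hkl =>
        (hD k hk l hl hkl).2.resolve_left he1)
  · have conv : ∀ ε : ResidueField A, NoTuple (ResidueField A) p S χ ε →
        TH831.OE.NTo (Tame p S) (fun l => (((l - 1) / p : ℕ) : ResidueField A))
        (fun l j => linking (ResidueField A) j l (χ j))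
        (fun j => linking (ResidueField A) j p (χ j)) ε := by
      intro ε h C T hC hT hrel hv
      obtain ⟨v, hv0, hv1, hv2⟩ := hv
      obtain ⟨w, hw0, hw1, hw2⟩ := h C T hC hT hrel
        ⟨v, hv0, (eigen_iff hv0).2 hv1, (eigen_iff hv0).2 hv2⟩
      refine ⟨w, hw0, (eigen_iff hw0).1 hw1, fun l hl => ?_⟩
      obtain ⟨c, hc⟩ := hw2 l hl
      have h2 : (T l * T l) *ᵥ w = c • c • w := by
        rw [← Matrix.mulVec_mulVec, hc, Matrix.mulVec_smul, hc]
      rw [hT l hl, Matrix.zero_mulVec, smul_smul] at h2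
      rcases smul_eq_zero.1 h2.symm with h3 | h3
      · rw [hc, mul_self_eq_zero.1 h3, zero_smul]
      · exact absurd h3 hw0
    exact key (fun xp yp x y _ a1 a2 a3 a4 => h2 xp yp x y a1 a2 a3 a4) (conv 1 h3)
      fun he1 => conv 0 (h4.resolve_left he1)

end Pool.Agent.Results.MP_b583a4_nt.OrdinaryScalar
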